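import Pool.Agent.MP_5aa9a8_gt.H44.Main

/-! There is a model of ZFC with a non-metrizable compactum that has a small diagonal. -/

namespace Pool.Agent.Results.MP_5aa9a8_gt.NotProvable

open Pool.Agent.MP_5aa9a8_gt.H44

theorem result : ∃ W : ZFSet.{0}, W.IsTransitive ∧ IsZFC (fun a b : W => a.1 ∈ b.1) ∧
    ∃ X ∈ W, ∃ τ ∈ W, IsTop W X τ ∧ Haus X τ ∧ Cpt W X τ ∧ SmallDiag W X τ ∧
      ¬ Metrizable W X τ :=
  exists_counter

end Pool.Agent.Results.MP_5aa9a8_gt.NotProvable
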